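import Pool.Agent.FBZ.PZ

/-!
# MP_d5720a_lc: a forcing extension of Gitik's model in which the bounding number is omega_2

Over every transitive model `N` of ZF there is a forcing notion `P ∈ N` such that for every
`P`-generic filter `H` over `N` the models `N` and `N[H]` have the same cardinals and in `N[H]` the
bounding number exists and is equal to `ω₂`.  Gitik's model is a transitive model of ZF, so Q1 has a
negative answer.

All definitions are in `Pool/Agent/FBZ/Base.lean`.
-/

theorem Pool.Agent.Results.MP_d5720a_lc.BoundingNumberOmega2.result.{u}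
    (N : Set ZFSet.{u}) (hN : Pool.Agent.FBZ.ZF N) :
    ∃ P ∈ N, ∃ le ∈ N, Pool.Agent.FBZ.Forcing P le ∧
      (∀ H, Pool.Agent.FBZ.Generic N P le H →
        (∀ ν, Pool.Agent.FBZ.Card N ν ↔ Pool.Agent.FBZ.Card (Pool.Agent.FBZ.Ext N H) ν) ∧
        ∃ κ, Pool.Agent.FBZ.Omega2 (Pool.Agent.FBZ.Ext N H) κ ∧
          Pool.Agent.FBZ.BoundingNumber (Pool.Agent.FBZ.Ext N H) κ) ∧
      (N.Countable → ∀ p ∈ P, ∃ H, Pool.Agent.FBZ.Generic N P le H ∧ p ∈ H) :=
  Pool.Agent.FBZ.main_omega2 hN
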